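import Pool.Agent.Run7.h527.AD.AA

set_option autoImplicit false

/-! The proportion of the multiples of four with a property (helper527). -/

namespace Run7.h527.AD

open Finset Filter Topology
open Pool.Agent.Results.MP_967f73_nt.AliquotSums (AlmostAll almostAll_iff almostAll_and card_mono' LargePrime)

open Classical in
/-- If almost all multiples of four with a prime factor `≥ m^(3/10 + ρ)` have the property `P`, for all `ρ > 0`, then at least
`7/10` of the multiples of four have it. -/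
theorem density_four (P : ℕ → Prop)
    (hP : ∀ ρ : ℝ, 0 < ρ → AlmostAll (fun m => LargePrime (3 / 10 + ρ) m → 4 ∣ m → P m))
    (δ : ℝ) (hδ : δ < 7 / 10) : ∃ N₀ : ℕ, ∀ N : ℕ, N₀ ≤ N →
    δ * (N / 4) ≤ (((Icc 1 N).filter (fun m => 4 ∣ m ∧ P m)).card : ℝ) := by
  obtain ⟨η, hη⟩ : ∃ η : ℝ, η = (7 / 10 - δ) / 4 := ⟨_, rfl⟩
  have hη0 : 0 < η := by rw [hη]; linarith
  obtain ⟨M₀, hM₀⟩ := Pool.Agent.N733.AQ.few_smooth (3 / 10 + η / 2) (η / 2) (by positivity) (by positivity)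
  obtain ⟨N₂, hN₂⟩ := exists_nat_gt (8 / η)
  obtain ⟨M₁, hM₁⟩ : ∃ M₁ : ℕ, ∀ M : ℕ, M₁ ≤ M → ((4 * M : ℕ) : ℝ) ^ (3 / 10 + η / 4) ≤
      ((2 * M : ℕ) : ℝ) ^ (3 / 10 + η / 2) := by
    have ht := ((tendsto_rpow_atTop (show 0 < η / 4 by linarith)).comp
      (tendsto_natCast_atTop_atTop (R := ℝ))).eventually_ge_atTop ((2 : ℝ) ^ (3 / 10 + η / 4))
    rw [eventually_atTop] at ht
    obtain ⟨M₁, hM₁⟩ := ht
    refine ⟨M₁ + 1, fun M hM => ?_⟩
    have h2 := hM₁ (2 * M) (by omega)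
    simp only [Function.comp] at h2
    have hM0 : (0 : ℝ) < ((2 * M : ℕ) : ℝ) := by exact_mod_cast (by omega : 0 < 2 * M)
    have e1 : ((4 * M : ℕ) : ℝ) = 2 * ((2 * M : ℕ) : ℝ) := by push_cast; ring
    rw [e1, Real.mul_rpow (by norm_num) hM0.le, show (3 / 10 + η / 2 : ℝ) = η / 4 + (3 / 10 + η / 4) by ring,
      Real.rpow_add hM0 (η / 4) (3 / 10 + η / 4)]
    exact mul_le_mul_of_nonneg_right h2 (Real.rpow_nonneg hM0.le _)
  obtain ⟨N₃, hN₃⟩ := (almostAll_iff _).1 (hP (η / 4) (by positivity)) (η / 16) (by positivity)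
  refine ⟨4 * M₀ + N₂ + 4 * M₁ + N₃ + 4, fun N hN => ?_⟩
  have hb := hN₃ N (by omega)
  obtain ⟨M, hM⟩ : ∃ M, M = N / 4 := ⟨_, rfl⟩
  have hc := hM₀ M (by omega)
  have hpw := hM₁ M (by omega)
  -- the multiples of four
  have hsub : (Icc 1 M).image (fun t => 4 * t) ⊆
      ((Icc 1 N).filter (fun m => 4 ∣ m ∧ P m) ∪
        (Icc 1 N).filter (fun m => ¬ (LargePrime (3 / 10 + η / 4) m → 4 ∣ m → P m))) ∪
        ((Icc 1 M).filter (fun m : ℕ => ∀ p : ℕ, p.Prime → p ∣ m →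
          (p : ℝ) ≤ ((2 * M : ℕ) : ℝ) ^ (3 / 10 + η / 2))).image (fun t => 4 * t) := by
    intro m hm
    rw [mem_image] at hm
    obtain ⟨t, ht, rfl⟩ := hm
    rw [mem_Icc] at ht
    have hmem : 4 * t ∈ Icc 1 N := by rw [mem_Icc]; omega
    have h4t : 4 ∣ 4 * t := ⟨t, rfl⟩
    rw [mem_union, mem_union, mem_filter, mem_filter, mem_image]
    by_cases h2 : P (4 * t)
    · left; left
      exact ⟨hmem, h4t, h2⟩
    · by_cases h3 : LargePrime (3 / 10 + η / 4) (4 * t)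
      · left; right
        exact ⟨hmem, fun h => h2 (h h3 h4t)⟩
      · right
        refine ⟨t, ?_, rfl⟩
        rw [mem_filter, mem_Icc]
        refine ⟨ht, fun p hp hpt => ?_⟩
        by_contra h4
        push Not at h4
        apply h3
        refine ⟨p, hp, Dvd.dvd.mul_left hpt 4, ?_⟩
        refine le_trans ?_ (hpw.trans h4.le)
        apply Real.rpow_le_rpow (by positivity) _ (by positivity)
        exact_mod_cast (by omega : 4 * t ≤ 4 * M)
  have hcard : ((Icc 1 M).image (fun t => 4 * t)).card = M := by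
    rw [card_image_of_injective _ (fun a b h => by simpa using h), Nat.card_Icc, Nat.add_sub_cancel]
  have h2 := card_le_card hsub
  rw [hcard] at h2
  have h3 : (M : ℝ) ≤ ((((Icc 1 N).filter (fun m => 4 ∣ m ∧ P m)).card : ℝ) +
      (((Icc 1 N).filter (fun m => ¬ (LargePrime (3 / 10 + η / 4) m → 4 ∣ m → P m))).card : ℝ)) +
      (((Icc 1 M).filter (fun m : ℕ => ∀ p : ℕ, p.Prime → p ∣ m →
        (p : ℝ) ≤ ((2 * M : ℕ) : ℝ) ^ (3 / 10 + η / 2))).card : ℝ) := by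
    have h4 := h2.trans ((card_union_le _ _).trans (add_le_add (card_union_le _ _) card_image_le))
    exact_mod_cast h4
  have hMN : (N : ℝ) / 4 - 1 ≤ M := by
    have : N ≤ 4 * M + 3 := by omega
    have : (N : ℝ) ≤ 4 * M + 3 := by exact_mod_cast this
    linarith
  have hMN2 : (M : ℝ) ≤ N / 4 := by
    have : 4 * M ≤ N := by omega
    have : (4 : ℝ) * M ≤ N := by exact_mod_cast this
    linarith
  have hN2 : 8 / η ≤ N := by
    have : (N₂ : ℝ) ≤ N := by exact_mod_cast (by omega : N₂ ≤ N)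
    linarith
  rw [div_le_iff₀ hη0] at hN2
  have hb' : (((Icc 1 N).filter (fun m => ¬ (LargePrime (3 / 10 + η / 4) m → 4 ∣ m → P m))).card : ℝ) ≤ η / 16 * N :=
    le_trans (Nat.cast_le.2 (card_mono' (fun m hm => hm))) hb
  have hc' : (((Icc 1 M).filter (fun m : ℕ => ∀ p : ℕ, p.Prime → p ∣ m →
      (p : ℝ) ≤ ((2 * M : ℕ) : ℝ) ^ (3 / 10 + η / 2))).card : ℝ) ≤ (3 / 10 + η / 2 + η / 2) * M :=
    le_trans (Nat.cast_le.2 (card_mono' (fun m hm => hm))) hc
  have e3 : δ = 7 / 10 - 4 * η := by rw [hη]; ring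
  have e1 : (7 / 10 - η) * M ≤ (M : ℝ) - (3 / 10 + η / 2 + η / 2) * M := by linarith
  rcases le_or_gt 0 (7 / 10 - η) with h | h
  · have e2 : (7 / 10 - η) * ((N : ℝ) / 4 - 1) ≤ (7 / 10 - η) * M := mul_le_mul_of_nonneg_left hMN h
    rw [e3]
    linarith
  · have e4 : δ * ((N : ℝ) / 4) ≤ 0 := mul_nonpos_of_nonpos_of_nonneg (by rw [e3]; linarith) (by positivity)
    exact e4.trans (Nat.cast_nonneg _)

/-- almost all derivatives are not small -/
theorem deriv_large : AlmostAll (fun m => (m : ℝ) / Real.log m ^ 2 ≤ (deriv m : ℝ)) := by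
  have hlog := (Real.tendsto_log_atTop.comp (tendsto_natCast_atTop_atTop (R := ℝ))).eventually_ge_atTop 4
  rw [eventually_atTop] at hlog
  obtain ⟨m₀, hm₀⟩ := hlog
  refine almostAll_and small_prime small_prime (m₀ + 2) ?_
  rintro m hm ⟨p, hp, hpm, hpl⟩ -
  have hL : 4 ≤ Real.log (m : ℝ) := hm₀ m (by omega)
  have hm0 : (0 : ℝ) < m := by exact_mod_cast (by omega : 0 < m)
  have hp0 : (0 : ℝ) < p := by exact_mod_cast hp.pos
  have h1 : m / p ≤ deriv m := div_le_deriv (by omega) hp hpm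
  have h2 : ((m / p : ℕ) : ℝ) = m / p := Nat.cast_div hpm hp0.ne'
  have h3 : ((m / p : ℕ) : ℝ) ≤ deriv m := by exact_mod_cast h1
  rw [h2] at h3
  refine le_trans ?_ h3
  apply div_le_div_of_nonneg_left hm0.le hp0
  nlinarith

end Run7.h527.AD
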