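import Mathlib

set_option autoImplicit false

/-!
Almost all integers have a small prime factor (helper527). The bound `rough_card` and its lemmas are copied from the
starting file `Pool/Agent/S17740.lean`.
-/

namespace Run7.h527.AD

open Finset Filter

open Classical in
noncomputable def roughSet (N z : ℕ) : Finset ℕ :=
  (Finset.Icc 1 N).filter (fun k => ∀ q, q.Prime → q ∣ k → z ≤ q)

theorem mem_roughSet {N z k : ℕ} :
    k ∈ roughSet N z ↔ (1 ≤ k ∧ k ≤ N) ∧ ∀ q, q.Prime → q ∣ k → z ≤ q := by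
  classical
  simp [roughSet]

theorem harm_real (n : ℕ) : ∑ j ∈ Finset.Icc 1 n, (1 : ℝ) / j = (harmonic n : ℝ) := by
  rw [harmonic_eq_sum_Icc]; push_cast; simp [one_div]

theorem rough_inj {N z : ℕ} :
    Set.InjOn (fun x : ℕ × ℕ => x.1 * x.2)
      (↑(roughSet N z ×ˢ Finset.Icc 1 (z - 1)) : Set (ℕ × ℕ)) := by
  have key : ∀ k m k' m' : ℕ, 1 ≤ k → (∀ q, q.Prime → q ∣ k → z ≤ q) → 1 ≤ m' → m' ≤ z - 1 →
      k * m = k' * m' → k ∣ k' := by
    intro k m k' m' hk hr hm1 hm2 h
    have hc : Nat.Coprime k m' := by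
      rw [Nat.coprime_iff_gcd_eq_one]
      by_contra hne
      obtain ⟨q, hq, hqd⟩ := Nat.exists_prime_and_dvd hne
      have h1 : q ∣ k := hqd.trans (Nat.gcd_dvd_left _ _)
      have h2 : q ∣ m' := hqd.trans (Nat.gcd_dvd_right _ _)
      have h3 := hr q hq h1
      have h4 := Nat.le_of_dvd hm1 h2
      have := hq.two_le
      omega
    exact hc.dvd_of_dvd_mul_right (h ▸ Dvd.intro m rfl)
  rintro ⟨k, m⟩ h1 ⟨k', m'⟩ h2 h
  simp only [coe_product, Set.mem_prod, mem_coe, mem_roughSet, mem_Icc] at h1 h2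
  simp only at h
  have e1 := key k m k' m' h1.1.1.1 h1.1.2 h2.2.1 h2.2.2 h
  have e2 := key k' m' k m h2.1.1.1 h2.1.2 h1.2.1 h1.2.2 h.symm
  have e3 : k = k' := Nat.dvd_antisymm e1 e2
  subst e3
  have : m = m' := Nat.eq_of_mul_eq_mul_left h1.1.1.1 h
  rw [this]

theorem rough_harm {N z : ℕ} (hz : 2 ≤ z) (hzN : z ≤ N) :
    (∑ k ∈ roughSet N z, (1 : ℝ) / k) * Real.log z ≤ 1 + 2 * Real.log N := by
  have hN : (2:ℝ) ≤ N := by exact_mod_cast hz.trans hzN
  have h1 : Real.log z ≤ ∑ m ∈ Finset.Icc 1 (z - 1), (1 : ℝ) / m := by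
    rw [harm_real]
    have := log_add_one_le_harmonic (z - 1)
    rwa [show z - 1 + 1 = z by omega] at this
  have h0 : 0 ≤ ∑ k ∈ roughSet N z, (1 : ℝ) / k := by positivity
  calc (∑ k ∈ roughSet N z, (1 : ℝ) / k) * Real.log z
      ≤ (∑ k ∈ roughSet N z, (1 : ℝ) / k) * ∑ m ∈ Finset.Icc 1 (z - 1), (1 : ℝ) / m :=
        mul_le_mul_of_nonneg_left h1 h0
    _ = ∑ x ∈ roughSet N z ×ˢ Finset.Icc 1 (z - 1), (1 : ℝ) / ((x.1 * x.2 : ℕ) : ℝ) := by
        rw [Finset.sum_mul_sum, ← Finset.sum_product']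
        refine Finset.sum_congr rfl fun x _ => ?_
        push_cast
        rw [one_div_mul_one_div]
    _ = ∑ j ∈ (roughSet N z ×ˢ Finset.Icc 1 (z - 1)).image (fun x : ℕ × ℕ => x.1 * x.2),
          (1 : ℝ) / (j : ℝ) := by
        rw [Finset.sum_image rough_inj]
    _ ≤ ∑ j ∈ Finset.Icc 1 (N * N), (1 : ℝ) / j := by
        refine Finset.sum_le_sum_of_subset_of_nonneg ?_ (fun _ _ _ => by positivity)
        intro j hj
        simp only [mem_image, mem_product, mem_roughSet, mem_Icc, Prod.exists] at hj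
        obtain ⟨k, m, ⟨⟨⟨hk1, hk2⟩, _⟩, hm1, hm2⟩, rfl⟩ := hj
        rw [mem_Icc]
        exact ⟨Nat.mul_pos hk1 hm1, Nat.mul_le_mul hk2 (by omega)⟩
    _ ≤ 1 + Real.log ((N * N : ℕ) : ℝ) := by
        rw [harm_real]; exact harmonic_le_one_add_log _
    _ = 1 + 2 * Real.log N := by
        push_cast
        rw [Real.log_mul (by positivity) (by positivity)]; ring

theorem rough_log {N z : ℕ} :
    ∑ k ∈ roughSet N z, Real.log k ≤
      (Real.log 4 + 4) * N * ∑ k ∈ roughSet N z, (1 : ℝ) / k := by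
  classical
  calc ∑ k ∈ roughSet N z, Real.log k
      = ∑ k ∈ roughSet N z, ∑ d ∈ k.divisors, ArithmeticFunction.vonMangoldt d := by
        refine Finset.sum_congr rfl fun k _ => ?_
        rw [ArithmeticFunction.vonMangoldt_sum]
    _ = ∑ x ∈ (roughSet N z).sigma (fun k => k.divisors), ArithmeticFunction.vonMangoldt x.2 := by
        rw [Finset.sum_sigma]
    _ = ∑ y ∈ ((roughSet N z).sigma (fun k => k.divisors)).image
          (fun x : (_ : ℕ) × ℕ => (x.1 / x.2, x.2)), ArithmeticFunction.vonMangoldt y.2 := by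
        rw [Finset.sum_image]
        rintro ⟨k, d⟩ h1 ⟨k', d'⟩ h2 h
        simp only [coe_sigma, Set.mem_sigma_iff, mem_coe, Nat.mem_divisors] at h1 h2
        simp only [Prod.mk.injEq] at h
        obtain ⟨ha, hb⟩ := h
        subst hb
        have : k = k' := by
          have e1 := Nat.div_mul_cancel h1.2.1
          have e2 := Nat.div_mul_cancel h2.2.1
          rw [← e1, ← e2, ha]
        subst this; rfl
    _ ≤ ∑ y ∈ (roughSet N z).sigma (fun m => Finset.Ioc 0 (N / m)),
          ArithmeticFunction.vonMangoldt y.2 := by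
        rw [← Finset.sum_image (f := fun y : ℕ × ℕ => ArithmeticFunction.vonMangoldt y.2)
          (g := fun y : (_ : ℕ) × ℕ => (y.1, y.2))
          (s := (roughSet N z).sigma (fun m => Finset.Ioc 0 (N / m)))]
        · refine Finset.sum_le_sum_of_subset_of_nonneg ?_
            (fun _ _ _ => ArithmeticFunction.vonMangoldt_nonneg)
          intro y hy
          simp only [mem_image, mem_sigma, Nat.mem_divisors, mem_roughSet, Sigma.exists] at hy
          obtain ⟨k, d, ⟨⟨⟨hk1, hk2⟩, hr⟩, hd, _⟩, rfl⟩ := hy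
          have hd0 : 0 < d := Nat.pos_of_dvd_of_pos hd hk1
          simp only [mem_image, mem_sigma, mem_Ioc, mem_roughSet, Sigma.exists]
          refine ⟨k / d, d, ⟨⟨⟨?_, ?_⟩, ?_⟩, hd0, ?_⟩, rfl⟩
          · exact Nat.div_pos (Nat.le_of_dvd hk1 hd) hd0
          · exact (Nat.div_le_self _ _).trans hk2
          · intro q hq hqd
            exact hr q hq (hqd.trans (Nat.div_dvd_of_dvd hd))
          · rw [Nat.le_div_iff_mul_le (Nat.div_pos (Nat.le_of_dvd hk1 hd) hd0)]
            rw [mul_comm, Nat.div_mul_cancel hd]; exact hk2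
        · rintro ⟨a, b⟩ _ ⟨c, d⟩ _ h
          simp only [Prod.mk.injEq] at h
          obtain ⟨rfl, rfl⟩ := h; rfl
    _ = ∑ m ∈ roughSet N z, Chebyshev.psi ((N / m : ℕ) : ℝ) := by
        rw [Finset.sum_sigma]
        refine Finset.sum_congr rfl fun m _ => ?_
        simp [Chebyshev.psi]
    _ ≤ ∑ m ∈ roughSet N z, (Real.log 4 + 4) * N * ((1 : ℝ) / m) := by
        refine Finset.sum_le_sum fun m hm => ?_
        have h4 : 0 ≤ Real.log 4 := Real.log_nonneg (by norm_num)
        have hm1 : (1:ℝ) ≤ m := by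
          rw [mem_roughSet] at hm; exact_mod_cast hm.1.1
        calc Chebyshev.psi ((N / m : ℕ) : ℝ) ≤ (Real.log 4 + 4) * ((N / m : ℕ) : ℝ) :=
              Chebyshev.psi_le_const_mul_self (by positivity)
          _ ≤ (Real.log 4 + 4) * ((N : ℝ) / m) :=
              mul_le_mul_of_nonneg_left Nat.cast_div_le (by positivity)
          _ = _ := by ring
    _ = _ := by rw [Finset.mul_sum]

theorem rough_card {N z : ℕ} (hz : 2 ≤ z) (hzN : z ≤ N) :
    ((roughSet N z).card : ℝ) * Real.log z ≤ 25 * N := by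
  have hN2 : (2:ℝ) ≤ N := by exact_mod_cast hz.trans hzN
  have hN0 : (0:ℝ) < N := by linarith
  have hlogN : 0 < Real.log N := Real.log_pos (by linarith)
  have hlog2 : (0.69:ℝ) < Real.log 2 := by have := Real.log_two_gt_d9; linarith
  have hlog2' : Real.log 2 < (0.7:ℝ) := by have := Real.log_two_lt_d9; linarith
  have hlogN2 : (0.69:ℝ) < Real.log N :=
    hlog2.trans_le (Real.log_le_log (by norm_num) hN2)
  have hlog4 : Real.log 4 < 1.4 := by
    rw [show (4:ℝ) = 2 ^ 2 by norm_num, Real.log_pow]; push_cast; linarith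
  set H : ℝ := ∑ k ∈ roughSet N z, (1 : ℝ) / k with hH
  have hH0 : 0 ≤ H := by positivity
  have h1 := rough_log (N := N) (z := z)
  rw [← hH] at h1
  have h2 : ∑ k ∈ roughSet N z, (Real.log N - Real.log k) ≤ N * H := by
    rw [hH, Finset.mul_sum]
    refine Finset.sum_le_sum fun k hk => ?_
    have hk1 : (1:ℝ) ≤ k := by
      rw [mem_roughSet] at hk; exact_mod_cast hk.1.1
    rw [← Real.log_div (by positivity) (by positivity)]
    have : 0 < (N:ℝ) / k := by positivity
    have := Real.log_le_sub_one_of_pos this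
    have e : (N:ℝ) * (1 / k) = N / k := by ring
    rw [e]; linarith
  have h3 : ((roughSet N z).card : ℝ) * Real.log N ≤ 6.4 * N * H := by
    have : ∑ k ∈ roughSet N z, (Real.log N - Real.log k) =
        ((roughSet N z).card : ℝ) * Real.log N - ∑ k ∈ roughSet N z, Real.log k := by
      rw [Finset.sum_sub_distrib]; simp
    rw [this] at h2
    have : (Real.log 4 + 4) * N * H ≤ 5.4 * N * H := by
      have : 0 ≤ N * H := by positivity
      nlinarith
    nlinarith
  have h4 := rough_harm hz hzN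
  rw [← hH] at h4
  have hlz : 0 ≤ Real.log z := Real.log_natCast_nonneg z
  -- multiply
  have h5 : ((roughSet N z).card : ℝ) * Real.log N * Real.log z ≤ 6.4 * N * (1 + 2 * Real.log N) := by
    calc ((roughSet N z).card : ℝ) * Real.log N * Real.log z ≤ 6.4 * N * H * Real.log z :=
          mul_le_mul_of_nonneg_right h3 hlz
      _ = 6.4 * N * (H * Real.log z) := by ring
      _ ≤ 6.4 * N * (1 + 2 * Real.log N) := mul_le_mul_of_nonneg_left h4 (by positivity)
  have h6 : 6.4 * N * (1 + 2 * Real.log N) ≤ 25 * N * Real.log N := by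
    have : 0 ≤ N * (Real.log N - 0.69) := by
      apply mul_nonneg hN0.le; linarith
    nlinarith
  have h7 : (((roughSet N z).card : ℝ) * Real.log z) * Real.log N ≤ (25 * N) * Real.log N := by
    nlinarith
  exact le_of_mul_le_mul_right h7 hlogN

open Classical in
/-- almost all integers `m` have a prime factor `≤ log m` -/
theorem few_rough (ε : ℝ) (hε : 0 < ε) : ∃ N₀ : ℕ, ∀ N : ℕ, N₀ ≤ N →
    (((Icc 1 N).filter (fun m => ¬ ∃ p : ℕ, p.Prime ∧ p ∣ m ∧ (p : ℝ) ≤ Real.log m)).card : ℝ) ≤ ε * N := by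
  -- the logarithm of the logarithm
  have hT := (Real.tendsto_log_atTop.comp (Real.tendsto_log_atTop.comp
    (tendsto_natCast_atTop_atTop (R := ℝ)))).eventually_ge_atTop (50 / ε + 2)
  rw [eventually_atTop] at hT
  obtain ⟨n1, hn1⟩ := hT
  have t1 : ∀ᶠ t : ℝ in atTop, Real.log t ≤ (1 / 4) * t := by
    have := Real.isLittleO_log_id_atTop.bound (show (0 : ℝ) < 1 / 4 by norm_num)
    filter_upwards [this, eventually_ge_atTop 1] with t ht h1
    rw [Real.norm_eq_abs, Real.norm_eq_abs, id, abs_of_nonneg (Real.log_nonneg h1), abs_of_nonneg (by linarith)] at ht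
    exact ht
  rw [eventually_atTop] at t1
  obtain ⟨T, hT1⟩ := t1
  have hlog := (Real.tendsto_log_atTop.comp (tendsto_natCast_atTop_atTop (R := ℝ))).eventually_ge_atTop
    (T + |T| + 16 + 2 / ε)
  rw [eventually_atTop] at hlog
  obtain ⟨n2, hn2⟩ := hlog
  refine ⟨n1 + n2 + 3, fun N hN => ?_⟩
  obtain ⟨L, hL⟩ : ∃ L, L = Real.log N := ⟨_, rfl⟩
  have hll : 50 / ε + 2 ≤ Real.log L := by rw [hL]; exact hn1 N (by omega)
  have hL2 : T + |T| + 16 + 2 / ε ≤ L := by rw [hL]; exact hn2 N (by omega)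
  have p1 : 0 < 50 / ε := by positivity
  have p2 : 0 < 2 / ε := by positivity
  have p3 : 0 ≤ |T| := abs_nonneg _
  have p4 : -T ≤ |T| := neg_le_abs T
  have hLT : T ≤ L := by linarith
  have hL16 : 16 ≤ L := by linarith
  have hL0 : 0 < L := by linarith
  have hN0 : (0 : ℝ) < N := by exact_mod_cast (by omega : 0 < N)
  have hN1 : (1 : ℝ) ≤ N := by exact_mod_cast (by omega : 1 ≤ N)
  obtain ⟨z, hz⟩ : ∃ z : ℕ, z = ⌊L / 2⌋₊ := ⟨_, rfl⟩
  have hz1 : (z : ℝ) ≤ L / 2 := by rw [hz]; exact Nat.floor_le (by positivity)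
  have hz2 : L / 2 < z + 1 := by rw [hz]; exact Nat.lt_floor_add_one _
  have hz3 : L / 4 ≤ z := by linarith
  have hz4 : (2 : ℝ) ≤ z := by linarith
  have hz5 : 2 ≤ z := by exact_mod_cast hz4
  have hLN : L ≤ N := by
    rw [hL]
    linarith [Real.log_le_sub_one_of_pos hN0]
  have hzN : z ≤ N := by
    have : (z : ℝ) ≤ N := by linarith
    exact_mod_cast this
  have hr := rough_card hz5 hzN
  have hlz : Real.log L - 2 ≤ Real.log z := by
    have e1 : Real.log (L / 4) ≤ Real.log z := Real.log_le_log (by positivity) hz3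
    rw [Real.log_div hL0.ne' (by norm_num)] at e1
    have e2 : Real.log 4 ≤ 2 := by
      rw [show (4 : ℝ) = 2 ^ 2 by norm_num, Real.log_pow]
      have := Real.log_two_lt_d9
      push_cast
      linarith
    linarith
  have hsub : (Icc 1 N).filter (fun m => ¬ ∃ p : ℕ, p.Prime ∧ p ∣ m ∧ (p : ℝ) ≤ Real.log m) ⊆
      roughSet N z ∪ Icc 1 ⌊(N : ℝ) / L⌋₊ := by
    intro m hm
    rw [mem_filter, mem_Icc] at hm
    obtain ⟨⟨hm1, hm2⟩, hm3⟩ := hm
    rw [mem_union]
    by_contra hcon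
    push Not at hcon
    obtain ⟨g1, g2⟩ := hcon
    rw [mem_roughSet] at g1
    rw [mem_Icc] at g2
    have hmL : (N : ℝ) / L < m := by
      by_contra h
      push Not at h
      exact g2 ⟨hm1, Nat.le_floor h⟩
    apply g1
    refine ⟨⟨hm1, hm2⟩, fun q hq hqm => ?_⟩
    by_contra h
    push Not at h
    apply hm3
    refine ⟨q, hq, hqm, ?_⟩
    have e1 : (q : ℝ) ≤ z := by exact_mod_cast h.le
    have e2 : Real.log ((N : ℝ) / L) ≤ Real.log m := Real.log_le_log (by positivity) hmL.le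
    rw [Real.log_div hN0.ne' hL0.ne', ← hL] at e2
    have e3 := hT1 L hLT
    linarith
  have h1 : (((Icc 1 N).filter (fun m => ¬ ∃ p : ℕ, p.Prime ∧ p ∣ m ∧ (p : ℝ) ≤ Real.log m)).card : ℝ) ≤
      (roughSet N z).card + N / L := by
    have h2 := (card_le_card hsub).trans (card_union_le _ _)
    rw [Nat.card_Icc, Nat.add_sub_cancel] at h2
    have h3 : (((Icc 1 N).filter (fun m => ¬ ∃ p : ℕ, p.Prime ∧ p ∣ m ∧ (p : ℝ) ≤ Real.log m)).card : ℝ) ≤
        (roughSet N z).card + (⌊(N : ℝ) / L⌋₊ : ℝ) := by exact_mod_cast h2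
    refine h3.trans ?_
    have := Nat.floor_le (show (0 : ℝ) ≤ N / L by positivity)
    linarith
  have hlz0 : 50 / ε ≤ Real.log z := by linarith
  have h4 : ((roughSet N z).card : ℝ) ≤ ε / 2 * N := by
    have e1 : ((roughSet N z).card : ℝ) * (50 / ε) ≤ 25 * N := by
      refine le_trans ?_ hr
      exact mul_le_mul_of_nonneg_left hlz0 (Nat.cast_nonneg _)
    rw [mul_div_assoc', div_le_iff₀ hε] at e1
    linarith
  have h5 : (N : ℝ) / L ≤ ε / 2 * N := by
    rw [div_le_iff₀ hL0]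
    have e1 : 2 / ε ≤ L := by linarith
    rw [div_le_iff₀ hε] at e1
    nlinarith
  linarith

end Run7.h527.AD
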