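import Pool.Agent.Run7.h527.AD.Der
import Pool.Agent.Run7.h527.AD.Rough
import Pool.Agent.Results.MP_967f73_nt.AliquotSums

set_option autoImplicit false

/-! Statements for almost all integers (helper527). -/

namespace Run7.h527.AD

open Finset Filter Topology
open Pool.Agent.Results.MP_967f73_nt.AliquotSums (AlmostAll almostAll_iff almostAll_and card_mono' LargePrime)

/-- a property of the values `g m` which are even and not small, for almost all `m` with a large prime factor -/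
theorem lin_general {g A B : ℕ → ℤ} (hg : Lin g A B) (θ : ℝ) (hθ0 : 0 < θ) (hθ1 : θ < 1) (hG : Gc θ A B) (Q : ℕ → Prop)
    (hE : Pool.Agent.N733.AQ.EBT θ (fun n => 2 ∣ n → Q n)) (C : ℕ) (ρ : ℝ) (hρ : 0 < ρ) :
    AlmostAll (fun m => LargePrime (1 - θ + ρ) m → (m : ℝ) / Real.log m ^ C ≤ (g m : ℝ) →
      Even (g m) → Q (g m).toNat) := by
  classical
  rw [almostAll_iff]
  intro δ hδ
  obtain ⟨N₀, h⟩ := engine hg θ hθ0 hθ1 hG (fun n => 2 ∣ n → Q n) hE (min ρ θ)
    (lt_min hρ hθ0) (min_le_right _ _) C (δ / 2) (by positivity)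
  obtain ⟨N₁, hN₁⟩ := exists_nat_gt (2 / δ)
  refine ⟨N₀ + N₁, fun N hN => ?_⟩
  have h1 := h N (by omega)
  have h2 : (1 : ℝ) ≤ δ / 2 * N := by
    have e1 : (N₁ : ℝ) ≤ N := by exact_mod_cast (by omega : N₁ ≤ N)
    have e2 : 2 / δ ≤ N := by linarith
    rw [div_le_iff₀ hδ] at e2
    linarith
  have h3 : ((Icc 1 N).filter (fun m : ℕ => ¬ (LargePrime (1 - θ + ρ) m → (m : ℝ) / Real.log m ^ C ≤
      (g m : ℝ) → Even (g m) → Q (g m).toNat))) ⊆
      insert 1 ((Icc 1 N).filter (fun m => LP (1 - θ + min ρ θ) m ∧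
        (m : ℝ) / Real.log m ^ C ≤ (g m : ℝ) ∧ ¬ (2 ∣ (g m).toNat → Q (g m).toNat))) := by
    intro m hm
    rw [mem_filter] at hm
    obtain ⟨hmx, hm2⟩ := hm
    push Not at hm2
    obtain ⟨⟨p, hp, hpm, hpτ⟩, g1, g2, g3⟩ := hm2
    rw [mem_insert, mem_filter]
    have hm1 := (mem_Icc.1 hmx).1
    rcases Nat.lt_or_ge 1 m with h4 | h4
    · right
      have hm1r : (1 : ℝ) < m := by exact_mod_cast h4
      refine ⟨hmx, ⟨p, hp, hpm, ?_⟩, g1, ?_⟩
      · refine le_trans ?_ hpτ
        apply Real.rpow_le_rpow_of_exponent_le hm1r.le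
        linarith [min_le_left ρ θ]
      · push Not
        refine ⟨?_, g3⟩
        have hlog : 0 < Real.log m := Real.log_pos hm1r
        have hpos : (0 : ℝ) < (g m : ℝ) := lt_of_lt_of_le (by positivity) g1
        have hpos' : 0 < g m := by exact_mod_cast hpos
        have e : (((g m).toNat : ℕ) : ℤ) = g m := Int.toNat_of_nonneg hpos'.le
        have : (2 : ℤ) ∣ (((g m).toNat : ℕ) : ℤ) := by
          rw [e]
          exact even_iff_two_dvd.1 g2
        exact_mod_cast this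
    · left
      omega
  have h4 : (((Icc 1 N).filter (fun m : ℕ => ¬ (LargePrime (1 - θ + ρ) m → (m : ℝ) / Real.log m ^ C ≤
      (g m : ℝ) → Even (g m) → Q (g m).toNat))).card : ℝ) ≤
      (((Icc 1 N).filter (fun m => LP (1 - θ + min ρ θ) m ∧
        (m : ℝ) / Real.log m ^ C ≤ (g m : ℝ) ∧ ¬ (2 ∣ (g m).toNat → Q (g m).toNat))).card : ℝ) + 1 := by
    exact_mod_cast (card_le_card h3).trans (card_insert_le _ _)
  have h5 : (((Icc 1 N).filter (fun m => LP (1 - θ + min ρ θ) m ∧
        (m : ℝ) / Real.log m ^ C ≤ (g m : ℝ) ∧ ¬ (2 ∣ (g m).toNat → Q (g m).toNat))).card : ℝ) ≤ δ / 2 * N :=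
    le_trans (Nat.cast_le.2 (card_mono' (fun m hm => hm))) h1
  refine le_trans (Nat.cast_le.2 (card_mono' (fun m hm => hm))) (h4.trans ((add_le_add_left h5 1).trans ?_))
  linarith

theorem der_general {D : ℕ → ℤ} {u v : ℤ} (hD : Der D u v) (hv : v ≠ 0) (α β : ℤ) (hβ : β ≠ 0) (θ : ℝ) (hθ0 : 0 < θ)
    (hθ1 : θ < 1) (Q : ℕ → Prop) (hE : Pool.Agent.N733.AQ.EBT θ (fun n => 2 ∣ n → Q n)) (C : ℕ) (ρ : ℝ) (hρ : 0 < ρ) :
    AlmostAll (fun m => LargePrime (1 - θ + ρ) m → (m : ℝ) / Real.log m ^ C ≤ ((α * m + β * D m : ℤ) : ℝ) →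
      Even (α * m + β * D m) → Q (α * m + β * D m).toNat) :=
  lin_general (hD.lin α β) θ hθ0 hθ1 (hD.gc hv α β hβ θ) Q hE C ρ hρ

/-- almost all integers `m` have a prime factor `≤ log m` -/
theorem small_prime : AlmostAll (fun m => ∃ p : ℕ, p.Prime ∧ p ∣ m ∧ (p : ℝ) ≤ Real.log m) := by
  classical
  rw [almostAll_iff]
  intro ε hε
  obtain ⟨N₀, h⟩ := few_rough ε hε
  exact ⟨N₀, fun N hN => le_trans (Nat.cast_le.2 (card_mono' (fun m hm => hm))) (h N hN)⟩

/-- the terms of the arithmetic derivative -/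
lemma div_le_deriv {m p : ℕ} (hm : 1 ≤ m) (hp : p.Prime) (hpm : p ∣ m) : m / p ≤ deriv m := by
  unfold deriv
  have h1 : p ∈ m.primeFactors := by
    rw [Nat.mem_primeFactors]
    exact ⟨hp, hpm, by omega⟩
  have h2 : 1 ≤ m.factorization p := (hp.dvd_iff_one_le_factorization (by omega)).1 hpm
  calc m / p = 1 * (m / p) := (one_mul _).symm
    _ ≤ m.factorization p * (m / p) := Nat.mul_le_mul_right _ h2
    _ ≤ _ := single_le_sum (f := fun p => m.factorization p * (m / p)) (fun _ _ => Nat.zero_le _) h1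

/-- the arithmetic derivative of a multiple of four is even and large -/
lemma deriv_four (t : ℕ) (ht : 1 ≤ t) : 4 * t ≤ deriv (4 * t) ∧ Even (deriv (4 * t)) := by
  have h0 : 4 * t ≠ 0 := by omega
  have h1 : 2 ∈ (4 * t).primeFactors := by
    rw [Nat.mem_primeFactors]
    exact ⟨Nat.prime_two, ⟨2 * t, by ring⟩, h0⟩
  have h2 : 2 ≤ (4 * t).factorization 2 := by
    rw [← Nat.prime_two.pow_dvd_iff_le_factorization h0]
    exact ⟨t, by ring⟩
  have h3 : 4 * t / 2 = 2 * t := by omega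
  constructor
  · unfold deriv
    calc 4 * t = 2 * (4 * t / 2) := by rw [h3]; ring
      _ ≤ (4 * t).factorization 2 * (4 * t / 2) := Nat.mul_le_mul_right _ h2
      _ ≤ _ := single_le_sum (f := fun p => (4 * t).factorization p * (4 * t / p)) (fun _ _ => Nat.zero_le _) h1
  · rw [even_iff_two_dvd]
    unfold deriv
    apply Finset.dvd_sum
    intro p hp
    have hpp := Nat.prime_of_mem_primeFactors hp
    have hpd := Nat.dvd_of_mem_primeFactors hp
    apply Dvd.dvd.mul_left
    by_cases hp2 : p = 2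
    · subst hp2
      rw [h3]
      exact ⟨t, rfl⟩
    · have h4 : Nat.Coprime 4 p := by
        have : Nat.Coprime (2 ^ 2) p := Nat.Coprime.pow_left 2 ((Nat.coprime_primes Nat.prime_two hpp).2 (Ne.symm hp2))
        exact this
      have h5 : p ∣ t := h4.symm.dvd_of_dvd_mul_left hpd
      rw [Nat.mul_div_assoc _ h5]
      exact ⟨2 * (t / p), by ring⟩

lemma deriv_mul_primes {p q : ℕ} (hp : p.Prime) (hq : q.Prime) (hpq : p ≠ q) : deriv (p * q) = p + q := by
  rw [deriv_mul p q ((Nat.coprime_primes hp hq).2 hpq), deriv_prime p hp, deriv_prime q hq]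
  ring

/-- Leibniz' rule for all arguments -/
lemma deriv_leibniz (m n : ℕ) (hm : 1 ≤ m) (hn : 1 ≤ n) : deriv (m * n) = m * deriv n + n * deriv m := by
  have key : ∀ k : ℕ, 1 ≤ k → ∀ S : Finset ℕ, k.primeFactors ⊆ S →
      (deriv k : ℚ) = k * ∑ p ∈ S, (k.factorization p : ℚ) / p := by
    intro k hk S hS
    unfold deriv
    push_cast
    rw [mul_sum, ← sum_subset hS]
    · apply sum_congr rfl
      intro p hp
      have hp0 : (p : ℚ) ≠ 0 := by exact_mod_cast (Nat.prime_of_mem_primeFactors hp).ne_zero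
      rw [Nat.cast_div (Nat.dvd_of_mem_primeFactors hp) hp0]
      ring
    · intro p _ hp
      rw [← Nat.support_factorization, Finsupp.notMem_support_iff] at hp
      rw [hp]
      simp
  have hmn : 1 ≤ m * n := Nat.mul_pos hm hn
  obtain ⟨S, hS⟩ : ∃ S, S = m.primeFactors ∪ n.primeFactors := ⟨_, rfl⟩
  have h1 := key m hm S (by rw [hS]; exact subset_union_left)
  have h2 := key n hn S (by rw [hS]; exact subset_union_right)
  have h3 := key (m * n) hmn S (by rw [hS, Nat.primeFactors_mul (by omega) (by omega)])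
  have h4 : (deriv (m * n) : ℚ) = m * deriv n + n * deriv m := by
    rw [h1, h2, h3, Nat.factorization_mul (by omega) (by omega)]
    simp only [Finsupp.add_apply, Nat.cast_add, add_div, sum_add_distrib, Nat.cast_mul]
    ring
  exact_mod_cast h4

end Run7.h527.AD
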