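import Mathlib
import Pool.Agent.N733.AQ.B
import Pool.Agent.N733.AQ.C

set_option autoImplicit false

/-!
Functions `g` with `g (k p) = A k * p + B k` for large primes `p ∤ k` (helper527): from the count over the cofactors `k`
(`Pool.Agent.N733.AQ.count`) to almost all integers with a large prime factor, for every pair `A`, `B` of moderate growth with
greatest common divisors which are rarely large.
-/

namespace Run7.h527.AD

open Finset Classical Filter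

/-- `m` has a prime factor `≥ m ^ τ` -/
def LP (τ : ℝ) (m : ℕ) : Prop := ∃ p : ℕ, p.Prime ∧ p ∣ m ∧ (m : ℝ) ^ τ ≤ p

/-- `g` is linear in the large prime factors of its argument, with coefficients of moderate growth -/
structure Lin (g A B : ℕ → ℤ) : Prop where
  id : ∃ P : ℕ, ∀ k p : ℕ, 1 ≤ k → p.Prime → P ≤ p → ¬ p ∣ k → g (k * p) = A k * p + B k
  bd : ∃ K C : ℕ, ∀ k : ℕ, 1 ≤ k → |(A k : ℝ)| ≤ K * (k * (1 + Real.log k) ^ C) ∧
    |(B k : ℝ)| ≤ K * (k * (1 + Real.log k) ^ C)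

/-- the greatest common divisors of `A k` and `B k` are rarely large -/
def Gc (θ : ℝ) (A B : ℕ → ℤ) : Prop := ∀ ε : ℝ, 0 < ε → ∃ C x₀ : ℕ, ∀ N : ℕ, x₀ ≤ N →
  (((Icc 1 N).filter (fun m => ∃ k p : ℕ, m = k * p ∧ 1 ≤ k ∧ p.Prime ∧ ¬ p ∣ k ∧ (N : ℝ) ^ (1 - θ) ≤ p ∧
    Real.log N ^ C < (Int.gcd (B k) (A k) : ℝ))).card : ℝ) ≤ ε * N

theorem engine {g A B : ℕ → ℤ} (hg : Lin g A B) (θ : ℝ) (hθ0 : 0 < θ) (hθ1 : θ < 1) (hG : Gc θ A B)
    (Good : ℕ → Prop) (hE : Pool.Agent.N733.AQ.EBT θ Good) (ρ : ℝ) (hρ : 0 < ρ) (hρθ : ρ ≤ θ) (C₀ : ℕ)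
    (ε : ℝ) (hε : 0 < ε) : ∃ N₀ : ℕ, ∀ N : ℕ, N₀ ≤ N →
      (((Icc 1 N).filter (fun m => LP (1 - θ + ρ) m ∧ (m : ℝ) / Real.log m ^ C₀ ≤ (g m : ℝ) ∧
        ¬ Good (g m).toNat)).card : ℝ) ≤ ε * N := by
  obtain ⟨P, hP⟩ := hg.id
  obtain ⟨K, C', hC'⟩ := hg.bd
  obtain ⟨Cg, xg, hgc⟩ := hG (ε / 4) (by positivity)
  obtain ⟨C, hC⟩ : ∃ C, C = 2 * C' + Cg + C₀ + 3 := ⟨_, rfl⟩
  obtain ⟨s, hs⟩ := exists_nat_gt (4 / ε)
  have h4e : 0 < 4 / ε := by positivity
  have hs1 : 1 ≤ s := by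
    have : (0 : ℝ) < s := by linarith
    exact_mod_cast this
  obtain ⟨xc, hxc⟩ := Pool.Agent.N733.AQ.count θ hθ0 hθ1 Good hE ρ hρ hρθ C 1 g A B P (by
    intro k p hk hp hpP hpk
    exact hP k p hk hp hpP hpk)
  obtain ⟨δ, hδ⟩ : ∃ δ : ℝ, δ = min ρ (1 - θ) := ⟨_, rfl⟩
  have hδ0 : 0 < δ := by rw [hδ]; exact lt_min hρ (by linarith)
  have hδρ : δ ≤ ρ := by rw [hδ]; exact min_le_left _ _
  have hδθ : δ ≤ 1 - θ := by rw [hδ]; exact min_le_right _ _
  obtain ⟨x1, hx1⟩ := eventually_atTop.1 (Pool.Agent.R460.GS.real_log (2 * C' + C₀ + 3) hδ0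
    (4 / ε + K + s + P + 2))
  obtain ⟨n1, hn1⟩ := exists_nat_ge x1
  refine ⟨xg + xc + n1 + 3, fun N hN => ?_⟩
  obtain ⟨hLb, hLp⟩ := hx1 N (hn1.trans (by exact_mod_cast (by omega : n1 ≤ N)))
  obtain ⟨L, hL⟩ : ∃ L, L = Real.log N := ⟨_, rfl⟩
  rw [← hL] at hLb hLp
  have q1 : (0 : ℝ) ≤ K := Nat.cast_nonneg _
  have q5 : (0 : ℝ) ≤ s := Nat.cast_nonneg _
  have q6 : (0 : ℝ) ≤ P := Nat.cast_nonneg _
  have hL2 : 2 ≤ L := by linarith
  have hLe : 4 / ε ≤ L := by linarith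
  have hL1 : 1 ≤ L := by linarith
  have hL0 : 0 < L := by linarith
  have hLs : (s : ℝ) < L := by linarith
  have hN1 : (1 : ℝ) ≤ N := by exact_mod_cast (by omega : 1 ≤ N)
  have hN0 : (0 : ℝ) < N := by linarith
  obtain ⟨τ, hτ⟩ : ∃ τ, τ = 1 - θ + ρ := ⟨_, rfl⟩
  have hτ0 : 0 < τ := by rw [hτ]; linarith
  have hτ1 : τ ≤ 1 := by rw [hτ]; linarith
  have hNδ : L ≤ (N : ℝ) ^ δ := by
    refine le_trans ?_ hLp
    calc L = L ^ 1 := (pow_one L).symm
      _ ≤ L ^ (2 * C' + C₀ + 3) := pow_le_pow_right₀ hL1 (by omega)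
  have hNτ : (N : ℝ) ^ (1 - θ) ≤ ((N : ℝ) / L) ^ τ := by
    rw [Real.div_rpow hN0.le hL0.le, le_div_iff₀ (by positivity)]
    calc (N : ℝ) ^ (1 - θ) * L ^ τ ≤ (N : ℝ) ^ (1 - θ) * L := by
          apply mul_le_mul_of_nonneg_left _ (by positivity)
          calc L ^ τ ≤ L ^ (1 : ℝ) := Real.rpow_le_rpow_of_exponent_le hL1 hτ1
            _ = L := Real.rpow_one L
      _ ≤ (N : ℝ) ^ (1 - θ) * (N : ℝ) ^ δ := mul_le_mul_of_nonneg_left hNδ (by positivity)
      _ = (N : ℝ) ^ (1 - θ + δ) := by rw [Real.rpow_add hN0]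
      _ ≤ (N : ℝ) ^ τ := Real.rpow_le_rpow_of_exponent_le hN1 (by rw [hτ]; linarith)
  -- the exceptional sets
  obtain ⟨S0, hS0⟩ : ∃ S0 : Finset ℕ, S0 = Icc 1 ⌊(N : ℝ) / L⌋₊ := ⟨_, rfl⟩
  obtain ⟨S1, hS1⟩ : ∃ S1 : Finset ℕ, S1 = (Icc 1 N).filter (fun m => ∃ t : ℕ, s < t ∧ t ^ 2 ∣ m) := ⟨_, rfl⟩
  obtain ⟨S2, hS2⟩ : ∃ S2 : Finset ℕ, S2 = (Icc 1 N).filter (fun m => ∃ k p : ℕ, m = k * p ∧ 1 ≤ k ∧ p.Prime ∧
    ¬ p ∣ k ∧ (N : ℝ) ^ (1 - θ) ≤ p ∧ L ^ Cg < (Int.gcd (B k) (A k) : ℝ)) := ⟨_, rfl⟩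
  obtain ⟨S3, hS3⟩ : ∃ S3 : Finset ℕ, S3 = (Icc 1 N).filter (fun m => Pool.Agent.N733.AQ.Adm θ ρ C A B N m ∧
    ¬ (0 < g m ∧ Good (g m).toNat)) := ⟨_, rfl⟩
  have hc0 : (S0.card : ℝ) ≤ ε / 4 * N := by
    rw [hS0, Nat.card_Icc, Nat.add_sub_cancel]
    refine (Nat.floor_le (by positivity)).trans ?_
    rw [div_le_iff₀ hL0]
    rw [div_le_iff₀ hε] at hLe
    nlinarith
  have hc1 : (S1.card : ℝ) ≤ ε / 4 * N := by
    rw [hS1]
    refine (Pool.Agent.N733.AQ.few_sq N s hs1).trans ?_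
    have hs0 : (0 : ℝ) < s := by exact_mod_cast hs1
    rw [div_le_iff₀ hs0]
    rw [div_lt_iff₀ hε] at hs
    nlinarith
  have hc2 : (S2.card : ℝ) ≤ ε / 4 * N := by
    rw [hS2, hL]
    exact hgc N (by omega)
  have hc3 : (S3.card : ℝ) ≤ ε / 4 * N := by
    have h1 := hxc N (by omega)
    rw [pow_one, ← hL] at h1
    rw [hS3]
    refine le_trans (le_of_eq ?_) (h1.trans ?_)
    · congr 2
    · rw [div_le_iff₀ hL0]
      rw [div_le_iff₀ hε] at hLe
      nlinarith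
  have hsub : (Icc 1 N).filter (fun m => LP (1 - θ + ρ) m ∧ (m : ℝ) / Real.log m ^ C₀ ≤ (g m : ℝ) ∧
        ¬ Good (g m).toNat) ⊆ S0 ∪ (S1 ∪ (S2 ∪ S3)) := by
    intro m hm
    rw [mem_filter] at hm
    obtain ⟨hmx, ⟨p, hp, hpm, hpτ⟩, hglow, hbad⟩ := hm
    obtain ⟨hm1, hm2⟩ := mem_Icc.1 hmx
    rw [mem_union, mem_union, mem_union]
    by_contra hcon
    push Not at hcon
    obtain ⟨g0, g1, g2, g3⟩ := hcon
    rw [hS0, mem_Icc] at g0
    rw [hS1, mem_filter] at g1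
    rw [hS2, mem_filter] at g2
    rw [hS3, mem_filter] at g3
    have hmL : (N : ℝ) / L < m := by
      by_contra h
      push Not at h
      exact g0 ⟨hm1, Nat.le_floor h⟩
    have hm0 : (0 : ℝ) < m := by exact_mod_cast hm1
    have hmN : (m : ℝ) ≤ N := by exact_mod_cast hm2
    rw [← hτ] at hpτ
    have hpN : (N : ℝ) ^ (1 - θ) ≤ p := by
      calc (N : ℝ) ^ (1 - θ) ≤ ((N : ℝ) / L) ^ τ := hNτ
        _ ≤ (m : ℝ) ^ τ := Real.rpow_le_rpow (by positivity) hmL.le hτ0.le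
        _ ≤ p := hpτ
    have hpδ : (N : ℝ) ^ δ ≤ p := (Real.rpow_le_rpow_of_exponent_le hN1 hδθ).trans hpN
    have hps : s < p := by
      have : (s : ℝ) < p := by linarith
      exact_mod_cast this
    have hp2 : ¬ p ^ 2 ∣ m := fun h => g1 ⟨hmx, p, hps, h⟩
    obtain ⟨k, hk⟩ := hpm
    have hk0 : 1 ≤ k := by
      rcases Nat.eq_zero_or_pos k with h | h
      · rw [h, mul_zero] at hk
        omega
      · exact h
    have hpk : ¬ p ∣ k := by
      rintro ⟨j, rfl⟩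
      exact hp2 ⟨j, by rw [hk]; ring⟩
    have hkm : m = k * p := by rw [hk, mul_comm]
    have hkr : (0 : ℝ) < k := by exact_mod_cast hk0
    have hp0 : (0 : ℝ) < p := by exact_mod_cast hp.pos
    have hkN : k ≤ N := by
      calc k = k * 1 := (mul_one k).symm
        _ ≤ k * p := Nat.mul_le_mul_left k hp.pos
        _ ≤ N := by rw [← hkm]; exact hm2
    have hklog : Real.log k ≤ L := by
      rw [hL]
      exact Real.log_le_log hkr (by exact_mod_cast hkN)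
    have hklog0 : 0 ≤ Real.log k := Real.log_nonneg (by exact_mod_cast hk0)
    have hfk : (K : ℝ) * (k * (1 + Real.log k) ^ C') ≤ k * L ^ (2 * C' + 1) := by
      have e1 : (1 + Real.log k) ^ C' ≤ L ^ (2 * C') := by
        rw [pow_mul]
        apply pow_le_pow_left₀ (by linarith)
        nlinarith
      have e2 : (K : ℝ) ≤ L := by linarith
      calc (K : ℝ) * (k * (1 + Real.log k) ^ C') ≤ L * (k * L ^ (2 * C')) := by
            apply mul_le_mul e2 _ (by positivity) hL0.le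
            exact mul_le_mul_of_nonneg_left e1 hkr.le
        _ = k * L ^ (2 * C' + 1) := by ring
    have hkth : (k : ℝ) ≤ (N : ℝ) ^ (θ - ρ) := by
      have e1 : (k : ℝ) = m / p := by
        rw [hkm]
        push_cast
        field_simp
      rw [e1]
      calc (m : ℝ) / p ≤ m / (m : ℝ) ^ τ := div_le_div_of_nonneg_left hm0.le (by positivity) hpτ
        _ = (m : ℝ) ^ (1 - τ) := by rw [Real.rpow_sub hm0, Real.rpow_one]
        _ ≤ (N : ℝ) ^ (1 - τ) := Real.rpow_le_rpow hm0.le hmN (by linarith)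
        _ = (N : ℝ) ^ (θ - ρ) := by rw [hτ]; congr 1; ring
    -- powers of the logarithm
    have hpw : ∀ i j : ℕ, i ≤ j → L ^ i ≤ L ^ j := fun i j h => pow_le_pow_right₀ hL1 h
    have hBabs : |((B k : ℤ) : ℝ)| ≤ k * L ^ (2 * C' + 1) := ((hC' k hk0).2).trans hfk
    have hAabs : ((A k : ℤ) : ℝ) ≤ k * L ^ (2 * C' + 1) :=
      (le_abs_self _).trans (((hC' k hk0).1).trans hfk)
    have hgcd : (Int.gcd (B k) (A k) : ℝ) ≤ L ^ Cg := by
      by_contra h
      push Not at h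
      exact g2 ⟨hmx, k, p, hkm, hk0, hp, hpk, hpN, h⟩
    have hpP : P ≤ p := by
      have : (P : ℝ) ≤ p := by linarith
      exact_mod_cast this
    -- the lower bound for A k
    have hAlow : (k : ℝ) / L ^ (C₀ + 1) ≤ A k := by
      have e0 : g m = A k * p + B k := by
        rw [hkm]
        exact hP k p hk0 hp hpP hpk
      rw [e0] at hglow
      push_cast at hglow
      have e2 : (m : ℝ) / L ^ C₀ ≤ m / Real.log m ^ C₀ := by
        have hlm : Real.log m ≤ L := by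
          rw [hL]
          exact Real.log_le_log hm0 hmN
        have hm1' : (1 : ℝ) < m := by
          have h1 : (p : ℝ) ≤ m := by
            rw [hkm]
            push_cast
            have : (1 : ℝ) ≤ k := by exact_mod_cast hk0
            nlinarith
          have h2 : (2 : ℝ) ≤ p := by exact_mod_cast hp.two_le
          linarith
        have hlm0 : 0 < Real.log m := Real.log_pos hm1'
        exact div_le_div_of_nonneg_left hm0.le (by positivity) (pow_le_pow_left₀ hlm0.le hlm C₀)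
      have e3 : (m : ℝ) = k * p := by rw [hkm]; push_cast; ring
      have e4 : (B k : ℝ) ≤ k * L ^ (2 * C' + 1) := (le_abs_self _).trans hBabs
      have e5 : (k : ℝ) * L ^ (2 * C' + 1) ≤ k * p / (2 * L ^ C₀) := by
        rw [le_div_iff₀ (by positivity)]
        calc (k : ℝ) * L ^ (2 * C' + 1) * (2 * L ^ C₀) = k * (2 * (L ^ (2 * C' + 1) * L ^ C₀)) := by ring
          _ ≤ k * (L * (L ^ (2 * C' + 1) * L ^ C₀)) := by
              apply mul_le_mul_of_nonneg_left _ hkr.le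
              exact mul_le_mul_of_nonneg_right hL2 (by positivity)
          _ = k * L ^ (2 * C' + C₀ + 2) := by ring
          _ ≤ k * L ^ (2 * C' + C₀ + 3) := mul_le_mul_of_nonneg_left (hpw _ _ (by omega)) hkr.le
          _ ≤ k * p := mul_le_mul_of_nonneg_left (hLp.trans hpδ) hkr.le
      have e6 : (k : ℝ) * p / (2 * L ^ C₀) ≤ A k * p := by
        have e7 : (k : ℝ) * p / L ^ C₀ = k * p / (2 * L ^ C₀) + k * p / (2 * L ^ C₀) := by
          field_simp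
          ring
        rw [e3] at e2 hglow
        linarith
      have e8 : (k : ℝ) / (2 * L ^ C₀) ≤ A k := by
        have : (k : ℝ) / (2 * L ^ C₀) * p ≤ A k * p := by
          calc (k : ℝ) / (2 * L ^ C₀) * p = k * p / (2 * L ^ C₀) := by ring
            _ ≤ _ := e6
        exact le_of_mul_le_mul_right this hp0
      refine le_trans ?_ e8
      apply div_le_div_of_nonneg_left hkr.le (by positivity)
      calc 2 * L ^ C₀ ≤ L * L ^ C₀ := mul_le_mul_of_nonneg_right hL2 (by positivity)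
        _ = L ^ (C₀ + 1) := by ring
    have hAdm : Pool.Agent.N733.AQ.Adm θ ρ C A B N m := by
      refine ⟨k, p, hkm, hk0, hp, hpk, hkth, hpN, ?_, ?_, ?_, ?_⟩
      · rw [← hL]
        refine le_trans ?_ hAlow
        exact div_le_div_of_nonneg_left hkr.le (by positivity) (hpw _ _ (by omega))
      · rw [← hL]
        exact hAabs.trans (mul_le_mul_of_nonneg_left (hpw _ _ (by omega)) hkr.le)
      · rw [← hL]
        exact hBabs.trans (mul_le_mul_of_nonneg_left (hpw _ _ (by omega)) hkr.le)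
      · rw [← hL]
        exact hgcd.trans (hpw _ _ (by omega))
    exact g3 ⟨hmx, hAdm, fun h => hbad h.2⟩
  have h1 : (((Icc 1 N).filter (fun m => LP (1 - θ + ρ) m ∧ (m : ℝ) / Real.log m ^ C₀ ≤
      (g m : ℝ) ∧ ¬ Good (g m).toNat)).card : ℝ) ≤
      (S0.card : ℝ) + ((S1.card : ℝ) + ((S2.card : ℝ) + S3.card)) := by
    have h2 := (card_le_card hsub).trans ((card_union_le _ _).trans (Nat.add_le_add_left ((card_union_le _ _).trans
      (Nat.add_le_add_left (card_union_le _ _) _)) _))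
    exact_mod_cast h2
  linarith

end Run7.h527.AD
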