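import Mathlib
import Pool.Agent.Run7.h527.AD.Engine

set_option autoImplicit false

/-! Arithmetic derivations (helper527). -/

namespace Run7.h527.AD

open Finset Classical Filter

/-- `D` satisfies Leibniz' rule for coprime arguments, is of moderate growth, and `D p = u p + v` for large primes -/
structure Der (D : ℕ → ℤ) (u v : ℤ) : Prop where
  leib : ∀ m n : ℕ, Nat.Coprime m n → D (m * n) = m * D n + n * D m
  growth : ∃ C : ℕ, ∀ m : ℕ, 1 ≤ m → |(D m : ℝ)| ≤ m * (1 + Real.log m) ^ C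
  prime : ∃ P : ℕ, ∀ p : ℕ, P ≤ p → p.Prime → D p = u * p + v

lemma Der.lin {D : ℕ → ℤ} {u v : ℤ} (hD : Der D u v) (α β : ℤ) :
    Lin (fun m => α * m + β * D m) (fun k => (α + β * u) * k + β * D k) (fun k => β * v * k) := by
  obtain ⟨P, hP⟩ := hD.prime
  obtain ⟨C, hC⟩ := hD.growth
  refine ⟨⟨P, fun k p hk hp hpP hpk => ?_⟩, ⟨(α + β * u).natAbs + β.natAbs + (β * v).natAbs, C, fun k hk => ?_⟩⟩
  · rw [hD.leib k p ((Nat.Prime.coprime_iff_not_dvd hp).2 hpk).symm, hP p hpP hp]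
    push_cast
    ring
  · have hk0 : (0 : ℝ) < k := by exact_mod_cast hk
    have hl0 : 0 ≤ Real.log k := Real.log_nonneg (by exact_mod_cast hk)
    have h1 : (1 : ℝ) ≤ (1 + Real.log k) ^ C := one_le_pow₀ (by linarith)
    have h2 := hC k hk
    obtain ⟨T, hT⟩ : ∃ T : ℝ, T = k * (1 + Real.log k) ^ C := ⟨_, rfl⟩
    rw [← hT] at h2 ⊢
    have hkT : (k : ℝ) ≤ T := by rw [hT]; exact le_mul_of_one_le_right hk0.le h1
    have hT0 : 0 ≤ T := hk0.le.trans hkT
    have a1 : (((α + β * u).natAbs : ℕ) : ℝ) = |((α + β * u : ℤ) : ℝ)| := by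
      rw [← Int.cast_abs, ← Int.natCast_natAbs, Int.cast_natCast]
    have a2 : ((β.natAbs : ℕ) : ℝ) = |(β : ℝ)| := by
      rw [← Int.cast_abs, ← Int.natCast_natAbs, Int.cast_natCast]
    have a3 : (((β * v).natAbs : ℕ) : ℝ) = |((β * v : ℤ) : ℝ)| := by
      rw [← Int.cast_abs, ← Int.natCast_natAbs, Int.cast_natCast]
    have b1 : 0 ≤ |((α + β * u : ℤ) : ℝ)| := abs_nonneg _
    have b2 : 0 ≤ |(β : ℝ)| := abs_nonneg _
    have b3 : 0 ≤ |((β * v : ℤ) : ℝ)| := abs_nonneg _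
    rw [Nat.cast_add, Nat.cast_add, a1, a2, a3]
    constructor
    · have e1 : (((α + β * u) * k + β * D k : ℤ) : ℝ) = ((α + β * u : ℤ) : ℝ) * k + β * D k := by push_cast; ring
      rw [e1]
      calc |((α + β * u : ℤ) : ℝ) * k + β * D k| ≤ |((α + β * u : ℤ) : ℝ) * k| + |(β : ℝ) * D k| := abs_add_le _ _
        _ = |((α + β * u : ℤ) : ℝ)| * k + |(β : ℝ)| * |(D k : ℝ)| := by
            rw [abs_mul, abs_mul, abs_of_nonneg hk0.le]
        _ ≤ |((α + β * u : ℤ) : ℝ)| * T + |(β : ℝ)| * T :=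
            add_le_add (mul_le_mul_of_nonneg_left hkT b1) (mul_le_mul_of_nonneg_left h2 b2)
        _ ≤ (|((α + β * u : ℤ) : ℝ)| + |(β : ℝ)| + |((β * v : ℤ) : ℝ)|) * T := by
            have : 0 ≤ |((β * v : ℤ) : ℝ)| * T := mul_nonneg b3 hT0
            linarith
    · have e1 : ((β * v * k : ℤ) : ℝ) = ((β * v : ℤ) : ℝ) * k := by push_cast; ring
      rw [e1, abs_mul, abs_of_nonneg hk0.le]
      calc |((β * v : ℤ) : ℝ)| * k ≤ |((β * v : ℤ) : ℝ)| * T := mul_le_mul_of_nonneg_left hkT b3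
        _ ≤ (|((α + β * u : ℤ) : ℝ)| + |(β : ℝ)| + |((β * v : ℤ) : ℝ)|) * T := by
            have : 0 ≤ (|((α + β * u : ℤ) : ℝ)| + |(β : ℝ)|) * T := mul_nonneg (add_nonneg b1 b2) hT0
            linarith

/-- the greatest common divisor of `k` and `D k` is bounded if `k` has no large square divisor -/
lemma Der.gcd_le {D : ℕ → ℤ} {u v : ℤ} (hD : Der D u v) (hv : v ≠ 0) (P : ℕ)
    (hP : ∀ p : ℕ, P ≤ p → p.Prime → D p = u * p + v) (s k : ℕ) (hk : 1 ≤ k) (hs : ∀ t : ℕ, t ^ 2 ∣ k → t ≤ s) :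
    Int.gcd k (D k) ≤ s ^ 2 * (P + v.natAbs + s).factorial := by
  obtain ⟨G, hG⟩ : ∃ G, G = Int.gcd k (D k) := ⟨_, rfl⟩
  obtain ⟨M, hM⟩ : ∃ M, M = P + v.natAbs + s := ⟨_, rfl⟩
  have hGk : G ∣ k := by
    have : (G : ℤ) ∣ (k : ℤ) := by rw [hG]; exact Int.gcd_dvd_left _ _
    exact_mod_cast this
  have hGD : (G : ℤ) ∣ D k := by rw [hG]; exact Int.gcd_dvd_right _ _
  obtain ⟨a, b, hab, ha⟩ := Nat.sq_mul_squarefree k
  have hbs : b ≤ s := hs b ⟨a, hab.symm⟩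
  have hb0 : 0 < b := by
    rcases Nat.eq_zero_or_pos b with h | h
    · rw [h] at hab
      simp at hab
      omega
    · exact h
  obtain ⟨h, hh⟩ : ∃ h, h = Nat.gcd G a := ⟨_, rfl⟩
  have hG1 : G ∣ b ^ 2 * h := by
    rw [hh, ← Nat.gcd_mul_left]
    exact Nat.dvd_gcd (Dvd.intro_left _ rfl) (by rw [hab]; exact hGk)
  have hha : h ∣ a := by rw [hh]; exact Nat.gcd_dvd_right _ _
  have hhG : h ∣ G := by rw [hh]; exact Nat.gcd_dvd_left _ _
  have ha0 : 0 < a := Nat.pos_of_ne_zero ha.ne_zero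
  have hh0 : 0 < h := Nat.pos_of_dvd_of_pos hha ha0
  have hsq : Squarefree h := ha.squarefree_of_dvd hha
  have hpr : ∀ ℓ : ℕ, ℓ.Prime → ℓ ∣ h → ℓ ≤ M := by
    intro ℓ hℓ hd
    by_contra hcon
    push Not at hcon
    have hℓa : ℓ ∣ a := hd.trans hha
    obtain ⟨a₁, ha₁⟩ := hℓa
    have hna₁ : ¬ ℓ ∣ a₁ := by
      rintro ⟨c, hc⟩
      have : ℓ * ℓ ∣ a := ⟨c, by rw [ha₁, hc]; ring⟩
      exact hℓ.one_lt.ne' (Nat.isUnit_iff.1 (ha ℓ this))
    have hnb : ¬ ℓ ∣ b := by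
      intro hdb
      have := Nat.le_of_dvd hb0 hdb
      omega
    obtain ⟨k₁, hk₁⟩ : ∃ k₁, k₁ = b ^ 2 * a₁ := ⟨_, rfl⟩
    have hkk : k = k₁ * ℓ := by rw [← hab, ha₁, hk₁]; ring
    have hnk : ¬ ℓ ∣ k₁ := by
      rw [hk₁]
      intro hd'
      rcases (Nat.Prime.dvd_mul hℓ).1 hd' with h1 | h1
      · exact hnb (hℓ.dvd_of_dvd_pow h1)
      · exact hna₁ h1
    have hDk : D k = k₁ * D ℓ + ℓ * D k₁ := by
      rw [hkk]
      exact hD.leib k₁ ℓ ((Nat.Prime.coprime_iff_not_dvd hℓ).2 hnk).symm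
    have h1 : (ℓ : ℤ) ∣ D k := (by exact_mod_cast (hd.trans hhG) : (ℓ : ℤ) ∣ (G : ℤ)).trans hGD
    rw [hDk] at h1
    have h2 : (ℓ : ℤ) ∣ k₁ * D ℓ := (Int.dvd_iff_dvd_of_dvd_add h1).2 (dvd_mul_right _ _)
    have hℓp : Prime (ℓ : ℤ) := Nat.prime_iff_prime_int.1 hℓ
    rcases hℓp.dvd_or_dvd h2 with h3 | h3
    · exact hnk (by exact_mod_cast h3)
    · rw [hP ℓ (by omega) hℓ] at h3
      have h4 : (ℓ : ℤ) ∣ v := (Int.dvd_iff_dvd_of_dvd_add h3).1 (Dvd.intro_left _ rfl)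
      have h5 : ℓ ∣ v.natAbs := Int.natCast_dvd.1 h4
      have := Nat.le_of_dvd (Int.natAbs_pos.2 hv) h5
      omega
  have hhM : h ≤ M.factorial := by
    rw [← Nat.prod_primeFactors_of_squarefree hsq, ← Finset.prod_Ico_id_eq_factorial]
    apply Finset.prod_le_prod_of_subset_of_one_le'
    · intro ℓ hℓ
      have h1 := Nat.prime_of_mem_primeFactors hℓ
      have h2 := hpr ℓ h1 (Nat.dvd_of_mem_primeFactors hℓ)
      rw [mem_Ico]
      exact ⟨h1.one_lt.le, by omega⟩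
    · intro i hi _
      exact (mem_Ico.1 hi).1
  rw [← hG, ← hM]
  calc G ≤ b ^ 2 * h := Nat.le_of_dvd (by positivity) hG1
    _ ≤ s ^ 2 * M.factorial := Nat.mul_le_mul (Nat.pow_le_pow_left hbs 2) hhM

lemma gcd_lin (α β u v : ℤ) (hβ : β ≠ 0) (hv : v ≠ 0) (k : ℕ) (D : ℤ) (hk : 1 ≤ k) :
    Int.gcd (β * v * k) ((α + β * u) * k + β * D) ≤ (β ^ 2 * v).natAbs * Int.gcd k D := by
  obtain ⟨d, hd⟩ : ∃ d, d = Int.gcd (β * v * k) ((α + β * u) * k + β * D) := ⟨_, rfl⟩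
  have h1 : (d : ℤ) ∣ β * v * k := by rw [hd]; exact Int.gcd_dvd_left _ _
  have h2 : (d : ℤ) ∣ (α + β * u) * k + β * D := by rw [hd]; exact Int.gcd_dvd_right _ _
  have h3 : (d : ℤ) ∣ (β ^ 2 * v) * k := by
    have := Dvd.dvd.mul_left h1 β
    refine this.trans (dvd_of_eq (by ring))
  have h4 : (d : ℤ) ∣ (β ^ 2 * v) * D := by
    have e : (β ^ 2 * v) * D = β * v * ((α + β * u) * k + β * D) - (α + β * u) * (β * v * k) := by ring
    rw [e]
    exact dvd_sub (Dvd.dvd.mul_left h2 _) (Dvd.dvd.mul_left h1 _)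
  have h5 : (d : ℤ) ∣ ((Int.gcd ((β ^ 2 * v) * k) ((β ^ 2 * v) * D) : ℕ) : ℤ) := Int.dvd_coe_gcd h3 h4
  rw [Int.gcd_mul_left] at h5
  have h6 : d ∣ (β ^ 2 * v).natAbs * Int.gcd k D := by exact_mod_cast h5
  rw [← hd]
  apply Nat.le_of_dvd _ h6
  apply Nat.mul_pos
  · apply Int.natAbs_pos.2
    exact mul_ne_zero (pow_ne_zero 2 hβ) hv
  · exact Int.gcd_pos_of_ne_zero_left _ (by exact_mod_cast (by omega : k ≠ 0))

lemma Der.gc {D : ℕ → ℤ} {u v : ℤ} (hD : Der D u v) (hv : v ≠ 0) (α β : ℤ) (hβ : β ≠ 0) (θ : ℝ) :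
    Gc θ (fun k => (α + β * u) * k + β * D k) (fun k => β * v * k) := by
  obtain ⟨P, hP⟩ := hD.prime
  intro ε hε
  obtain ⟨s, hs⟩ := exists_nat_gt (1 / ε)
  have hs0 : (0 : ℝ) < s := lt_trans (by positivity) hs
  have hs1 : 1 ≤ s := by exact_mod_cast hs0
  obtain ⟨K, hK⟩ : ∃ K : ℕ, K = (β ^ 2 * v).natAbs * (s ^ 2 * (P + v.natAbs + s).factorial) := ⟨_, rfl⟩
  have hlog := (Real.tendsto_log_atTop.comp (tendsto_natCast_atTop_atTop (R := ℝ))).eventually_ge_atTop (K : ℝ)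
  rw [eventually_atTop] at hlog
  obtain ⟨n1, hn1⟩ := hlog
  refine ⟨1, n1, fun N hN => ?_⟩
  have hKL : (K : ℝ) ≤ Real.log N := hn1 N hN
  refine le_trans (b := (((Icc 1 N).filter (fun m => ∃ t : ℕ, s < t ∧ t ^ 2 ∣ m)).card : ℝ)) ?_ ?_
  · rw [Nat.cast_le]
    apply card_le_card
    intro m hm
    rw [mem_filter] at hm ⊢
    obtain ⟨hmx, k, p, hkp, hk, hp, hpk, -, hbig⟩ := hm
    refine ⟨hmx, ?_⟩
    by_contra hcon
    push Not at hcon
    have h1 := hD.gcd_le hv P hP s k hk (fun t ht => by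
      by_contra h
      push Not at h
      exact hcon t h (ht.trans ⟨p, hkp⟩))
    have h2 := gcd_lin α β u v hβ hv k (D k) hk
    have h3 : (Int.gcd (β * v * k) ((α + β * u) * k + β * D k) : ℝ) ≤ K := by
      rw [hK]
      exact_mod_cast h2.trans (Nat.mul_le_mul_left _ h1)
    rw [pow_one] at hbig
    simp only at hbig
    linarith
  · refine (Pool.Agent.N733.AQ.few_sq N s hs1).trans ?_
    rw [div_le_iff₀ hs0]
    rw [div_lt_iff₀ hε] at hs
    have hN0 : (0 : ℝ) ≤ N := Nat.cast_nonneg _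
    nlinarith

/-- the theorem for the derivations -/
theorem der_main {D : ℕ → ℤ} {u v : ℤ} (hD : Der D u v) (hv : v ≠ 0) (α β : ℤ) (hβ : β ≠ 0)
    (θ : ℝ) (hθ0 : 0 < θ) (hθ1 : θ < 1) (Good : ℕ → Prop) (hE : Pool.Agent.N733.AQ.EBT θ Good) (ρ : ℝ) (hρ : 0 < ρ)
    (hρθ : ρ ≤ θ) (C₀ : ℕ) (ε : ℝ) (hε : 0 < ε) : ∃ N₀ : ℕ, ∀ N : ℕ, N₀ ≤ N →
      (((Icc 1 N).filter (fun m => LP (1 - θ + ρ) m ∧ (m : ℝ) / Real.log m ^ C₀ ≤ ((α * m + β * D m : ℤ) : ℝ) ∧
        ¬ Good (α * m + β * D m).toNat)).card : ℝ) ≤ ε * N :=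
  engine (hD.lin α β) θ hθ0 hθ1 (hD.gc hv α β hβ θ) Good hE ρ hρ hρθ C₀ ε hε

/-- the arithmetic derivative -/
def deriv (m : ℕ) : ℕ := ∑ p ∈ m.primeFactors, m.factorization p * (m / p)

lemma deriv_mul (m n : ℕ) (h : Nat.Coprime m n) : deriv (m * n) = m * deriv n + n * deriv m := by
  rcases Nat.eq_zero_or_pos m with hm | hm
  · subst hm
    rw [Nat.coprime_zero_left] at h
    subst h
    simp [deriv]
  rcases Nat.eq_zero_or_pos n with hn | hn
  · subst hn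
    rw [Nat.coprime_zero_right] at h
    subst h
    simp [deriv]
  unfold deriv
  rw [h.primeFactors_mul, Finset.sum_union h.disjoint_primeFactors, add_comm, mul_sum, mul_sum]
  congr 1
  · apply sum_congr rfl
    intro p hp
    have h1 := Nat.dvd_of_mem_primeFactors hp
    have h2 : m.factorization p = 0 := Nat.factorization_eq_zero_of_not_dvd (fun hd => by
      have := Nat.dvd_gcd hd h1
      rw [h] at this
      exact (Nat.prime_of_mem_primeFactors hp).one_lt.ne' (Nat.dvd_one.1 this))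
    rw [Nat.factorization_mul hm.ne' hn.ne', Finsupp.add_apply, h2, zero_add, Nat.mul_div_assoc _ h1]
    ring
  · apply sum_congr rfl
    intro p hp
    have h1 := Nat.dvd_of_mem_primeFactors hp
    have h2 : n.factorization p = 0 := Nat.factorization_eq_zero_of_not_dvd (fun hd => by
      have := Nat.dvd_gcd h1 hd
      rw [h] at this
      exact (Nat.prime_of_mem_primeFactors hp).one_lt.ne' (Nat.dvd_one.1 this))
    rw [Nat.factorization_mul hm.ne' hn.ne', Finsupp.add_apply, h2, add_zero, mul_comm m n,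
      Nat.mul_div_assoc _ h1]
    ring

lemma deriv_prime (p : ℕ) (hp : p.Prime) : deriv p = 1 := by
  unfold deriv
  rw [hp.primeFactors, sum_singleton, hp.factorization_self, Nat.div_self hp.pos]

/-- the sum of the exponents is at most the binary logarithm -/
lemma sum_factorization_le (m : ℕ) (hm : 1 ≤ m) :
    ((∑ p ∈ m.primeFactors, m.factorization p : ℕ) : ℝ) * Real.log 2 ≤ Real.log m := by
  have h1 : Real.log m = ∑ p ∈ m.primeFactors, (m.factorization p : ℝ) * Real.log p := by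
    conv_lhs => rw [← Nat.prod_factorization_pow_eq_self (show m ≠ 0 by omega)]
    rw [Finsupp.prod, Nat.support_factorization, Nat.cast_prod, Real.log_prod]
    · apply sum_congr rfl
      intro p _
      rw [Nat.cast_pow, Real.log_pow]
    · intro p hp
      have := (Nat.prime_of_mem_primeFactors hp).pos
      positivity
  rw [h1]
  push_cast
  rw [sum_mul]
  apply sum_le_sum
  intro p hp
  apply mul_le_mul_of_nonneg_left _ (Nat.cast_nonneg _)
  apply Real.log_le_log (by norm_num)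
  exact_mod_cast (Nat.prime_of_mem_primeFactors hp).two_le

lemma deriv_le (m : ℕ) (hm : 1 ≤ m) : (deriv m : ℝ) ≤ m * Real.log m := by
  have hm0 : (0 : ℝ) < m := by exact_mod_cast hm
  have h1 := sum_factorization_le m hm
  have h2 : (deriv m : ℝ) ≤ m / 2 * ((∑ p ∈ m.primeFactors, m.factorization p : ℕ) : ℝ) := by
    unfold deriv
    push_cast
    rw [mul_sum]
    apply sum_le_sum
    intro p hp
    rw [mul_comm ((m : ℝ) / 2)]
    apply mul_le_mul_of_nonneg_left _ (Nat.cast_nonneg _)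
    refine (Nat.cast_div_le (α := ℝ)).trans ?_
    apply div_le_div_of_nonneg_left hm0.le (by norm_num)
    exact_mod_cast (Nat.prime_of_mem_primeFactors hp).two_le
  have h3 : (0 : ℝ) ≤ ((∑ p ∈ m.primeFactors, m.factorization p : ℕ) : ℝ) := Nat.cast_nonneg _
  have h4 := Real.log_two_gt_d9
  refine h2.trans ?_
  calc (m : ℝ) / 2 * ((∑ p ∈ m.primeFactors, m.factorization p : ℕ) : ℝ) =
      m * (((∑ p ∈ m.primeFactors, m.factorization p : ℕ) : ℝ) * (1 / 2)) := by ring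
    _ ≤ m * (((∑ p ∈ m.primeFactors, m.factorization p : ℕ) : ℝ) * Real.log 2) := by
        apply mul_le_mul_of_nonneg_left _ hm0.le
        exact mul_le_mul_of_nonneg_left (by linarith) h3
    _ ≤ m * Real.log m := mul_le_mul_of_nonneg_left h1 hm0.le

theorem der_deriv : Der (fun m => (deriv m : ℤ)) 0 1 where
  leib := fun m n h => by
    rw [deriv_mul m n h]
    push_cast
    ring
  growth := ⟨1, fun m hm => by
    rw [pow_one, Int.cast_natCast, abs_of_nonneg (Nat.cast_nonneg _)]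
    refine (deriv_le m hm).trans ?_
    apply mul_le_mul_of_nonneg_left _ (Nat.cast_nonneg _)
    linarith⟩
  prime := ⟨0, fun p _ hp => by
    rw [deriv_prime p hp]
    norm_num⟩

end Run7.h527.AD
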