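import Pool.Agent.Run7.h527.AD.AA

set_option autoImplicit false

/-! Sums of two different primes: the predicates used for Goldbach's problem (helper527). -/

namespace Run7.h527.AD

open Finset Filter Topology
open Pool.Agent.H560R3.GB (HL sing)

/-- The number of primes `p` with `y₁ < p ≤ y₂` such that `n - p` is a prime. -/
def count (n y₁ y₂ : ℕ) : ℕ := ((Ioc y₁ y₂).filter (fun p => p.Prime ∧ (n - p).Prime)).card

/-- The number of the representations `n = p + q` with primes `q < p`. -/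
def pairs (n : ℕ) : ℕ := ((range n).filter (fun q => 2 * q < n ∧ q.Prime ∧ (n - q).Prime)).card

/-- the asymptotic formula, for the sums of two different primes and for all windows -/
def Formula (ε : ℝ) (W n : ℕ) : Prop :=
  |(pairs n : ℝ) - HL n / 2| ≤ ε * (HL n / 2) ∧
  ∀ y₁ y₂ : ℕ, y₁ < y₂ → y₂ ≤ n → (n : ℝ) / Real.log n ^ W ≤ (y₂ : ℝ) - y₁ →
    |(count n y₁ y₂ : ℝ) - sing n * ((y₂ : ℝ) - y₁) / Real.log n ^ 2| ≤
      ε * (sing n * ((y₂ : ℝ) - y₁) / Real.log n ^ 2)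

/-- the lower bound, for the sums of two different primes and for all windows -/
def Lower (W n : ℕ) : Prop :=
  1 / 21 * (HL n / 2) ≤ (pairs n : ℝ) ∧
  ∀ y₁ y₂ : ℕ, y₁ < y₂ → y₂ ≤ n → (n : ℝ) / Real.log n ^ W ≤ (y₂ : ℝ) - y₁ →
    1 / 20 * (sing n * ((y₂ : ℝ) - y₁) / Real.log n ^ 2) ≤ (count n y₁ y₂ : ℝ)

lemma pairs_eq (n : ℕ) (hn : 4 ≤ n) (he : 2 ∣ n) : pairs n = count n 0 (n / 2 - 1) := by
  unfold pairs count
  congr 1
  ext q
  rw [mem_filter, mem_filter, mem_range, mem_Ioc]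
  obtain ⟨t, rfl⟩ := he
  rw [show 2 * t / 2 = t by omega]
  constructor
  · rintro ⟨h1, h2, h3, h4⟩
    exact ⟨⟨h3.pos, by omega⟩, h3, h4⟩
  · rintro ⟨h1, h3, h4⟩
    exact ⟨by omega, by omega, h3, h4⟩

lemma large (c : ℝ) : ∃ n₀ : ℕ, ∀ n : ℕ, n₀ ≤ n → c ≤ Real.log (n : ℝ) := by
  have hlog := (Real.tendsto_log_atTop.comp (tendsto_natCast_atTop_atTop (R := ℝ))).eventually_ge_atTop c
  rw [eventually_atTop] at hlog
  exact hlog

theorem formula_of (ε : ℝ) (hε : 0 < ε) (W : ℕ) : ∃ n₀ : ℕ, ∀ n : ℕ, n₀ ≤ n → 2 ∣ n →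
    Pool.Agent.W93.PG.WinP (ε / 2) (W + 1) n → Formula ε W n := by
  obtain ⟨n1, hn1⟩ := large 4
  obtain ⟨n2, hn2⟩ := exists_nat_gt (4 / ε + 4)
  refine ⟨n1 + n2 + 8, fun n hn h2 hw => ?_⟩
  have hL : 4 ≤ Real.log (n : ℝ) := hn1 n (by omega)
  obtain ⟨L, hLd⟩ : ∃ L, L = Real.log (n : ℝ) := ⟨_, rfl⟩
  have hn8 : (8 : ℝ) ≤ n := by exact_mod_cast (by omega : 8 ≤ n)
  have hnε : 4 / ε + 4 ≤ n := hn2.le.trans (by exact_mod_cast (by omega : n2 ≤ n))
  have hs := Pool.Agent.W93.GB.one_le_sing n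
  have hs0 : 0 < sing n := by linarith
  have hmono : (n : ℝ) / Real.log n ^ (W + 1) ≤ n / Real.log n ^ W := by
    apply div_le_div_of_nonneg_left (by positivity) (by positivity)
    exact pow_le_pow_right₀ (by linarith) (by omega)
  refine ⟨?_, ?_⟩
  · obtain ⟨y, hy⟩ : ∃ y, y = n / 2 - 1 := ⟨_, rfl⟩
    obtain ⟨t, ht⟩ := h2
    have hyr : (y : ℝ) = n / 2 - 1 := by
      have e1 : 2 * y + 2 = n := by omega
      have e2 : (2 : ℝ) * y + 2 = n := by exact_mod_cast e1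
      linarith
    have h1 := hw 0 y (by omega) (by omega) (by
      rw [Nat.cast_zero, sub_zero]
      have e1 : (n : ℝ) / Real.log n ^ (W + 1) ≤ n / 4 := by
        apply div_le_div_of_nonneg_left (by positivity) (by norm_num)
        calc (4 : ℝ) ≤ Real.log n := hL
          _ = Real.log n ^ 1 := (pow_one _).symm
          _ ≤ Real.log n ^ (W + 1) := pow_le_pow_right₀ (by linarith) (by omega)
      linarith)
    rw [Nat.cast_zero, sub_zero] at h1
    have e0 : Pool.Agent.W93.PG.cnt n 0 y = pairs n := by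
      rw [pairs_eq n (by omega) ⟨t, ht⟩, ← hy]
      rfl
    rw [e0, hyr] at h1
    unfold Pool.Agent.H560R3.GB.HL
    rw [← hLd] at h1 ⊢
    have hL0 : 0 < L := by linarith
    obtain ⟨T, hT⟩ : ∃ T, T = sing n / L ^ 2 := ⟨_, rfl⟩
    have hT0 : 0 < T := by rw [hT]; positivity
    have e1 : sing n * ((n : ℝ) / 2 - 1) / L ^ 2 = T * (n / 2 - 1) := by rw [hT]; ring
    have e2 : sing n * ((n : ℝ) / L ^ 2) / 2 = T * (n / 2) := by rw [hT]; ring
    rw [e1] at h1
    rw [e2]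
    have e3 : |(pairs n : ℝ) - T * (n / 2)| ≤ |(pairs n : ℝ) - T * (n / 2 - 1)| + T := by
      have : (pairs n : ℝ) - T * (n / 2) = ((pairs n : ℝ) - T * (n / 2 - 1)) + (-T) := by ring
      rw [this]
      refine (abs_add_le _ _).trans ?_
      rw [abs_neg, abs_of_pos hT0]
    have e4 : 4 ≤ ε * n := by
      have : 4 / ε ≤ n := by linarith
      rw [div_le_iff₀ hε] at this
      linarith
    have e5 : T * 4 ≤ T * (ε * n) := mul_le_mul_of_nonneg_left e4 hT0.le
    have e6 : 0 < ε * T := by positivity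
    nlinarith
  · intro y₁ y₂ h3 h4 h5
    refine (hw y₁ y₂ h3 h4 (hmono.trans h5)).trans ?_
    apply mul_le_mul_of_nonneg_right (by linarith)
    have : (0 : ℝ) ≤ (y₂ : ℝ) - y₁ := by
      have : (y₁ : ℝ) < y₂ := by exact_mod_cast h3
      linarith
    positivity

theorem lower_of (W : ℕ) : ∃ n₀ : ℕ, ∀ n : ℕ, n₀ ≤ n → 2 ∣ n →
    Pool.Agent.R460.GS.WinL (W + 1) n → Lower W n := by
  obtain ⟨n1, hn1⟩ := large 4
  refine ⟨n1 + 100, fun n hn h2 hw => ?_⟩
  have hL : 4 ≤ Real.log (n : ℝ) := hn1 n (by omega)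
  obtain ⟨L, hLd⟩ : ∃ L, L = Real.log (n : ℝ) := ⟨_, rfl⟩
  have hn8 : (100 : ℝ) ≤ n := by exact_mod_cast (by omega : 100 ≤ n)
  have hs := Pool.Agent.W93.GB.one_le_sing n
  have hs0 : 0 < sing n := by linarith
  have hmono : (n : ℝ) / Real.log n ^ (W + 1) ≤ n / Real.log n ^ W := by
    apply div_le_div_of_nonneg_left (by positivity) (by positivity)
    exact pow_le_pow_right₀ (by linarith) (by omega)
  refine ⟨?_, ?_⟩
  · obtain ⟨y, hy⟩ : ∃ y, y = n / 2 - 1 := ⟨_, rfl⟩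
    obtain ⟨t, ht⟩ := h2
    have hyr : (y : ℝ) = n / 2 - 1 := by
      have e1 : 2 * y + 2 = n := by omega
      have e2 : (2 : ℝ) * y + 2 = n := by exact_mod_cast e1
      linarith
    have h1 := hw 0 y (by omega) (by omega) (by
      rw [Nat.cast_zero, sub_zero]
      have e1 : (n : ℝ) / Real.log n ^ (W + 1) ≤ n / 4 := by
        apply div_le_div_of_nonneg_left (by positivity) (by norm_num)
        calc (4 : ℝ) ≤ Real.log n := hL
          _ = Real.log n ^ 1 := (pow_one _).symm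
          _ ≤ Real.log n ^ (W + 1) := pow_le_pow_right₀ (by linarith) (by omega)
      linarith)
    rw [Nat.cast_zero, sub_zero] at h1
    have e0 : Pool.Agent.W93.PG.cnt n 0 y = pairs n := by
      rw [pairs_eq n (by omega) ⟨t, ht⟩, ← hy]
      rfl
    rw [e0, hyr] at h1
    refine le_trans ?_ h1
    unfold Pool.Agent.H560R3.GB.HL
    rw [← hLd]
    have hL0 : 0 < L := by linarith
    obtain ⟨T, hT⟩ : ∃ T, T = sing n / L ^ 2 := ⟨_, rfl⟩
    have hT0 : 0 < T := by rw [hT]; positivity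
    have e1 : sing n * ((n : ℝ) / 2 - 1) / L ^ 2 = T * (n / 2 - 1) := by rw [hT]; ring
    have e2 : sing n * ((n : ℝ) / L ^ 2) / 2 = T * (n / 2) := by rw [hT]; ring
    rw [e1, e2]
    nlinarith
  · intro y₁ y₂ h3 h4 h5
    exact hw y₁ y₂ h3 h4 (hmono.trans h5)

/-- `n` is the sum of two different primes -/
def Distinct (n : ℕ) : Prop := ∃ p q : ℕ, p.Prime ∧ q.Prime ∧ p ≠ q ∧ p + q = n

lemma distinct_of_pairs {n : ℕ} (h : 0 < pairs n) : Distinct n := by
  unfold pairs at h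
  rw [card_pos] at h
  obtain ⟨q, hq⟩ := h
  rw [mem_filter, mem_range] at hq
  obtain ⟨h1, h2, h3, h4⟩ := hq
  exact ⟨n - q, q, h4, h3, by omega, by omega⟩

lemma pairs_pos {W n : ℕ} (hn : 2 ≤ n) (h : Lower W n) : 0 < pairs n := by
  have h1 := h.1
  have hs := Pool.Agent.W93.GB.one_le_sing n
  have hn2 : (2 : ℝ) ≤ n := by exact_mod_cast hn
  have hlog : 0 < Real.log (n : ℝ) := Real.log_pos (by linarith)
  have h2 : (0 : ℝ) < pairs n := by
    refine lt_of_lt_of_le ?_ h1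
    unfold Pool.Agent.H560R3.GB.HL
    positivity
  exact_mod_cast h2

end Run7.h527.AD
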